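import Pool.Agent.Y45.MON.StmG

set_option autoImplicit false

/-!
# MON G6 (job 1643, helper44 for helper45): the product of two different rotations far apart has
infinite order in the quotient, variable exponents
-/

namespace Pool.Agent.Y44.MON

open Pool.Agent.TH54.BU Pool.Agent.Y45.MON

section key

variable {G : Type*} [Group G]

/-- the vertices of the broken line `1, x y, u, u x y, u ^ 2, …` with `u = x y x' y⁻¹` -/
def kv (x x' y : G) (k : ℕ) : G :=
  (x * y * x' * y⁻¹) ^ (k / 2) * (if k % 2 = 0 then 1 else x * y)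

theorem kv_even (x x' y : G) (j : ℕ) : kv x x' y (2 * j) = (x * y * x' * y⁻¹) ^ j := by
  unfold kv
  rw [if_pos (by omega), mul_one]
  congr 1
  omega

theorem kv_odd (x x' y : G) (j : ℕ) :
    kv x x' y (2 * j + 1) = (x * y * x' * y⁻¹) ^ j * (x * y) := by
  unfold kv
  rw [if_neg (by omega)]
  congr 2
  omega

/-- three consecutive vertices of the broken line -/
theorem kv_tri (x x' y : G) (k : ℕ) : ∃ y' z z', (y' = y ∨ y' = y⁻¹) ∧
    ((z = x ∧ z' = x') ∨ (z = x' ∧ z' = x)) ∧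
    kv x x' y (k + 1) = kv x x' y k * (z * y') ∧
    kv x x' y (k + 2) = kv x x' y k * (z * y') * (z' * y'⁻¹) := by
  rcases Nat.even_or_odd' k with ⟨j, rfl | rfl⟩
  · refine ⟨y, x, x', Or.inl rfl, Or.inl ⟨rfl, rfl⟩, ?_, ?_⟩
    · rw [kv_odd, kv_even]
    · rw [show 2 * j + 2 = 2 * (j + 1) by ring, kv_even, kv_even, pow_succ]
      group
  · refine ⟨y⁻¹, x', x, Or.inr rfl, Or.inr ⟨rfl, rfl⟩, ?_, ?_⟩
    · rw [show 2 * j + 1 + 1 = 2 * (j + 1) by ring, kv_even, kv_odd, pow_succ]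
      group
    · rw [show 2 * j + 1 + 2 = 2 * (j + 1) + 1 by ring, kv_odd, kv_odd, pow_succ]
      group

/-- the corners of the broken line -/
theorem kv_corner (H : GH G) {K B : ℕ} (hK : 100 * H.D + 100 ≤ K) (hA : H.Acy K B) {x z : G}
    (hx : IsOfFinOrder x) (hx1 : x ≠ 1) (hl : H.len x ≤ 1) (hz : H.len z ≤ 1) (y : G) :
    H.len (z * y) + H.len (x * y⁻¹) ≤ H.len (z * y * (x * y⁻¹)) +
      (2 * B + 100 * (H.D + 1) + 3) := by
  have h1 := H.len_mul z y
  have h2 := H.len_mul x y⁻¹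
  rw [H.len_inv] at h2
  have h3 := H.kk0 hK hA hx hx1 hl y⁻¹
  rw [H.len_inv, inv_inv] at h3
  have h4 := H.len_mul z⁻¹ (z * y * (x * y⁻¹))
  rw [H.len_inv, show z⁻¹ * (z * y * (x * y⁻¹)) = y * x * y⁻¹ by group] at h4
  omega

end key

section key

variable {G : Type*} [Group G] {H : GH G} {c θ T : ℕ} (L : LS H c θ T)

/-- no line follows both `[v, v z y]` and `[v z y, v z y x y⁻¹]` for a long time -/
theorem kv_turn {x : G} (hx : IsOfFinOrder x) (hx1 : x ≠ 1) (hl : H.len x ≤ 1) {z : G}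
    (hz : H.len z ≤ 1) (y v : G) (i : L.ι) (w : G) :
    L.D i w v (v * (z * y)) ≤ θ + 100 * (H.D + c + 1) + c + 1 ∨
      L.D i w (v * (z * y)) (v * (z * y) * (x * y⁻¹)) ≤ θ + 100 * (H.D + c + 1) + c + 1 := by
  have e1 : L.D i w v (v * (z * y)) = L.D i ((v * (z * y))⁻¹ * w) (y⁻¹ * z⁻¹) 1 := by
    rw [← L.ky_D_mul, mul_one]
    congr 1
    group
  have e2 : L.D i w (v * (z * y)) (v * (z * y) * (x * y⁻¹)) =
      L.D i ((v * (z * y))⁻¹ * w) 1 (x * y⁻¹) := by
    rw [← L.ky_D_mul, mul_one]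
  rw [e1, e2]
  set w' := (v * (z * y))⁻¹ * w
  rcases L.turn hx hx1 hl (y := y⁻¹) i w' with h | h
  · left
    have h1 := L.D_tri i w' (y⁻¹ * z⁻¹) y⁻¹ 1
    have h2 := L.az_lip i w' (y⁻¹ * z⁻¹) y⁻¹
    rw [H.d_comm, ky_d H, H.len_inv] at h2
    rw [L.D_comm i w' y⁻¹ 1] at h1
    omega
  · right
    omega

/-- the angles of an element of minimal length in its class modulo `M` -/
theorem kv_min {G : Type} [Group G] {H : GH G} {c θ T : ℕ} (L : LS H c θ T) {n : L.ι → ℕ}
    {M : Subgroup G} (F : Fv L n M) (i : L.ι)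
    (hn : T * (2 * c + 1) ≤ n i) {y : G}
    (hmin : ∀ m ∈ M, H.len y ≤ H.len (m * y)) (w : G) :
    2 * |L.s i w 1 y| < n i + T * (2 * c + 1) := by
  by_contra hcon
  push Not at hcon
  obtain ⟨k, hk⟩ := L.shorten 0 (n := n i) (i := i) (u := w) (p := 1) (q := y)
    (by rw [add_zero]; exact hn) (by
      push_cast
      rw [add_zero]
      exact hcon)
  rw [add_zero, H.d_one, H.d_one] at hk
  have := hmin _ (F.rot i w k)
  omega

/-- the displacement of a broken geodesic along one line, if no line follows two consecutive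
pieces for a long time -/
theorem chain_ang1 {a E P : ℕ} (v : ℕ → G) (n : ℕ)
    (h1 : ∀ i, i + 2 ≤ n → H.d (v i) (v (i + 1)) + H.d (v (i + 1)) (v (i + 2)) ≤
      H.d (v i) (v (i + 2)) + a)
    (h2 : ∀ i, i < n → 100 * (a + E + c + H.D + 1) ≤ H.d (v i) (v (i + 1)))
    (h3 : ∀ k, k + 2 ≤ n → ∀ (i : L.ι) (w : G), L.D i w (v k) (v (k + 1)) ≤ E ∨
      L.D i w (v (k + 1)) (v (k + 2)) ≤ E) (i : L.ι) (w : G)
    (h4 : ∀ k, k < n → |L.s i w (v k) (v (k + 1))| ≤ P) :
    |L.s i w (v 0) (v n)| ≤ P + 2 * T * (100 * (a + E + c + H.D + 1)) := by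
  classical
  have key := L.cha_key v n h1 h2 h3 i w
  -- small distances give small displacements
  have hs : ∀ p q : G, L.D i w p q ≤ E + c + 1 →
      |L.s i w p q| ≤ (T : ℤ) * (100 * (a + E + c + H.D + 1)) := by
    intro p q h
    have l1 := L.wf_lin_z i (L.s i w p q)
    have l2 : T * H.len (L.x i ^ L.s i w p q) ≤ T * (100 * (a + E + c + H.D + 1)) :=
      Nat.mul_le_mul_left _ (by
        have : H.len (L.x i ^ L.s i w p q) ≤ E + c + 1 := h
        omega)
    rw [Int.abs_eq_natAbs]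
    exact_mod_cast l1.trans l2
  have hT0 : (0 : ℤ) ≤ (T : ℤ) * (100 * (a + E + c + H.D + 1)) := by positivity
  have hP0 : (0 : ℤ) ≤ P := Int.natCast_nonneg _
  by_cases hn : L.D i w (v 0) (v n) ≤ E + c + 1
  · have := hs _ _ hn
    linarith
  push Not at hn
  have hex : ∃ k, E + c + 1 < L.D i w (v 0) (v k) := ⟨n, hn⟩
  set k := Nat.find hex with hk
  have hk1 : E + c + 1 < L.D i w (v 0) (v k) := Nat.find_spec hex
  have hk2 : k ≤ n := Nat.find_min' hex hn
  have hk0 : k ≠ 0 := by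
    intro h0
    rw [h0, L.cha_D_self] at hk1
    omega
  have hk3 : L.D i w (v 0) (v (k - 1)) ≤ E + c + 1 := by
    have := Nat.find_min hex (m := k - 1) (by omega)
    push Not at this
    exact this
  have hk4 : L.D i w (v k) (v n) ≤ E + c + 1 := by
    rcases hk2.eq_or_lt with h | h
    · rw [h, L.cha_D_self]
      omega
    · rcases key k h with h' | h'
      · omega
      · exact h'
  have e1 := L.wf_s_add i w (v 0) (v (k - 1)) (v k)
  have e2 := L.wf_s_add i w (v 0) (v k) (v n)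
  have b1 := hs _ _ hk3
  have b2 := hs _ _ hk4
  have b3 := h4 (k - 1) (by omega)
  rw [show k - 1 + 1 = k by omega] at b3
  rw [← e2, ← e1]
  have t1 := abs_add_le (L.s i w (v 0) (v (k - 1)) + L.s i w (v (k - 1)) (v k))
    (L.s i w (v k) (v n))
  have t2 := abs_add_le (L.s i w (v 0) (v (k - 1))) (L.s i w (v (k - 1)) (v k))
  linarith

end key

/-- G6: the product of two rotations far apart has infinite order in the quotient -/
theorem key2 : Key2Stmt := by
  intro G _ H c θ T L K B p L1 Θ n E M _ Q S hn x x' y hx hx1 hl hx' hx1' hl' hy hmin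
  set a := 2 * B + 100 * (H.D + 1) + 3 with ha
  set E0 := θ + 100 * (H.D + c + 1) + c + 1 with hE0
  have hR : a + E0 + c + H.D + 1 ≤ 2 * B + θ + 400 * (H.D + c + 1) := by omega
  have hTR : T * (100 * (a + E0 + c + H.D + 1)) ≤
      T * (100 * (2 * B + θ + 400 * (H.D + c + 1))) :=
    Nat.mul_le_mul_left _ (Nat.mul_le_mul_left _ hR)
  have hTc : T * (c + 1) ≤ T * (2 * c + 1) := Nat.mul_le_mul_left _ (by omega)
  have hn' : ∀ i, 2 * (T * Θ) + 24 * L.thr + 10 * (T * (2 * c + 1)) +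
      4 * (T * (100 * (2 * B + θ + 400 * (H.D + c + 1)))) + 4 ≤ n i := by
    intro i
    have := hn i
    have e1 : 2 * T * Θ = 2 * (T * Θ) := by ring
    have e2 : 10 * T * (2 * c + 1) = 10 * (T * (2 * c + 1)) := by ring
    have e3 : 4 * T * (100 * (2 * B + θ + 400 * (H.D + c + 1))) =
        4 * (T * (100 * (2 * B + θ + 400 * (H.D + c + 1)))) := by ring
    rw [e1, e2, e3] at this
    exact this
  -- the broken line
  set u : G := x * y * x' * y⁻¹ with hu
  have h1 : ∀ i, H.d (kv x x' y i) (kv x x' y (i + 1)) +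
      H.d (kv x x' y (i + 1)) (kv x x' y (i + 2)) ≤ H.d (kv x x' y i) (kv x x' y (i + 2)) + a := by
    intro i
    obtain ⟨y', z, z', -, hz, h2, h3⟩ := kv_tri x x' y i
    rw [h3, h2, ky_d H, ky_d H, mul_assoc, ky_d H]
    rcases hz with ⟨rfl, rfl⟩ | ⟨rfl, rfl⟩
    · exact kv_corner H S.hK S.acy hx' hx1' hl' hl y'
    · exact kv_corner H S.hK S.acy hx hx1 hl hl' y'
  have h2 : ∀ i, 100 * (a + E0 + c + H.D + 1) ≤ H.d (kv x x' y i) (kv x x' y (i + 1)) := by
    intro i
    obtain ⟨y', z, z', h0, hz, h2, -⟩ := kv_tri x x' y i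
    rw [h2, ky_d H]
    have h3 : H.len y' = H.len y := ky_len H h0
    have h4 := H.len_mul z⁻¹ (z * y')
    rw [inv_mul_cancel_left, H.len_inv] at h4
    have h5 : H.len z ≤ 1 := by
      rcases hz with ⟨rfl, -⟩ | ⟨rfl, -⟩
      · exact hl
      · exact hl'
    omega
  have h3 : ∀ k, ∀ (i : L.ι) (w : G), L.D i w (kv x x' y k) (kv x x' y (k + 1)) ≤ E0 ∨
      L.D i w (kv x x' y (k + 1)) (kv x x' y (k + 2)) ≤ E0 := by
    intro k i w
    obtain ⟨y', z, z', -, hz, h2, h3⟩ := kv_tri x x' y k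
    rw [h3, h2]
    rcases hz with ⟨rfl, rfl⟩ | ⟨rfl, rfl⟩
    · exact kv_turn L hx' hx1' hl' hl y' _ i w
    · exact kv_turn L hx hx1 hl hl' y' _ i w
  have h4 : ∀ k, ∀ (i : L.ι) (w : G), |L.s i w (kv x x' y k) (kv x x' y (k + 1))| ≤
      (((n i + T * (2 * c + 1)) / 2 + T * (c + 1) : ℕ) : ℤ) := by
    intro k i w
    obtain ⟨y', z, z', h0, hz, h2, -⟩ := kv_tri x x' y k
    have hlz : H.len z ≤ 1 := by
      rcases hz with ⟨rfl, -⟩ | ⟨rfl, -⟩
      · exact hl
      · exact hl'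
    rw [h2]
    have hmin' : ∀ w : G, 2 * |L.s i w 1 y| < n i + T * (2 * c + 1) :=
      kv_min L S.fil i (by have := hn' i; omega) hmin
    -- the angle of one piece
    have h3 : 2 * |L.s i w (kv x x' y k) (kv x x' y k * (z * y'))| <
        n i + T * (2 * c + 1) + 2 * (T * (c + 1)) := by
      have e1 : L.s i w (kv x x' y k) (kv x x' y k * (z * y')) =
          L.s i ((kv x x' y k)⁻¹ * w) 1 (z * y') := by
        rw [← L.ky_s_mul, mul_one]
      rw [e1]
      set w' := (kv x x' y k)⁻¹ * w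
      have e2 := L.wf_s_add i w' 1 z (z * y')
      have e3 := L.ky_s_mul i z w' 1 y'
      rw [mul_one] at e3
      rw [e3] at e2
      have e4 : 2 * |L.s i (z⁻¹ * w') 1 y'| < n i + T * (2 * c + 1) := by
        rcases h0 with rfl | rfl
        · exact hmin' _
        · have h1 := hmin' (y * (z⁻¹ * w'))
          have h2 := L.ky_s_mul i y (y * (z⁻¹ * w')) 1 y⁻¹
          rw [inv_mul_cancel_left, mul_one, mul_inv_cancel] at h2
          rw [← h2, L.wf_s_symm i _ 1 y, abs_neg]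
          exact h1
      have e5 : |L.s i w' 1 z| ≤ T * (c + 1) := by
        have h1 := L.az_lip i w' 1 z
        rw [H.d_one] at h1
        have h2 := L.wf_lin_z i (L.s i w' 1 z)
        have h3 : T * H.len (L.x i ^ L.s i w' 1 z) ≤ T * (c + 1) :=
          Nat.mul_le_mul_left _ (by unfold LS.D at h1; omega)
        rw [Int.abs_eq_natAbs]
        exact_mod_cast h2.trans h3
      have e6 := abs_add_le (L.s i w' 1 z) (L.s i (z⁻¹ * w') 1 y')
      rw [e2] at e6
      linarith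
    rw [Int.abs_eq_natAbs] at h3 ⊢
    have h4 : 2 * (L.s i w (kv x x' y k) (kv x x' y k * (z * y'))).natAbs <
        n i + T * (2 * c + 1) + 2 * (T * (c + 1)) := by exact_mod_cast h3
    have h5 : (L.s i w (kv x x' y k) (kv x x' y k * (z * y'))).natAbs ≤
        (n i + T * (2 * c + 1)) / 2 + T * (c + 1) := by
      omega
    exact_mod_cast h5
  have hev : ∀ m, kv x x' y (2 * m) = u ^ m := kv_even x x' y
  have hv0 : kv x x' y 0 = 1 := by
    have := hev 0
    rwa [mul_zero, pow_zero] at this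
  intro hfin
  obtain ⟨N, hN, hN1⟩ := isOfFinOrder_iff_pow_eq_one.1 hfin
  rw [← QuotientGroup.mk_pow, QuotientGroup.eq_one_iff] at hN1
  -- `u ^ N` is not trivial
  have hlen : N ≤ H.len (u ^ N) := by
    have h5 := (H.lg a (kv x x' y) (2 * N) (fun i _ => h1 i) (fun i _ => by
      have := h2 i
      omega)).2
    rw [hv0, hev, H.d_one] at h5
    omega
  have hne : u ^ N ≠ 1 := by
    intro h
    rw [h, H.len_one] at hlen
    omega
  obtain ⟨i, w, hiw⟩ := S.fil.gr _ hN1 hne 1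
  rw [mul_one] at hiw
  have h5 := chain_ang1 L (a := a) (E := E0) (P := (n i + T * (2 * c + 1)) / 2 + T * (c + 1))
    (kv x x' y) (2 * N) (fun i _ => h1 i) (fun i _ => h2 i) (fun k _ => h3 k) i w
    (fun k _ => h4 k i w)
  rw [hv0, hev] at h5
  have h6 : (n i + T * (2 * c + 1)) / 2 + T * (c + 1) +
      2 * T * (100 * (a + E0 + c + H.D + 1)) + 12 * L.thr < n i := by
    have e4 : 2 * T * (100 * (a + E0 + c + H.D + 1)) =
      2 * (T * (100 * (a + E0 + c + H.D + 1))) := by ring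
    have := hn' i
    rw [e4]
    omega
  have h7 : ((((n i + T * (2 * c + 1)) / 2 + T * (c + 1) : ℕ) : ℤ) +
      2 * T * (100 * (a + E0 + c + H.D + 1)) + 12 * L.thr) < n i := by
    exact_mod_cast h6
  linarith

end Pool.Agent.Y44.MON
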